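import Mathlib

/-!
The shifted Thomas-Fermi-Dirac-von Weizsaecker energy.
-/

open MeasureTheory
open scoped ContDiff

namespace Pool.Agent.H475Z.TF

/-- Three dimensional Euclidean space. -/
abbrev R3 := EuclideanSpace ℝ (Fin 3)

/-- `ρ` belongs to `G_p` and `g` is the weak gradient of `ρ ^ (1 / 2)`: `ρ ≥ 0`,
`ρ ∈ L¹ ∩ L^p`, and `g = ∇ ρ ^ (1 / 2) ∈ L²` in the sense of distributions. -/
structure Admissible (p : ℝ) (ρ : R3 → ℝ) (g : R3 → R3) : Prop where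
  nonneg : ∀ x, 0 ≤ ρ x
  integrable : Integrable ρ
  integrable_rpow : Integrable (fun x => ρ x ^ p)
  grad_memLp : MemLp g 2
  grad_weak : ∀ φ : R3 → ℝ, ContDiff ℝ ∞ φ → HasCompactSupport φ → ∀ v : R3,
    ∫ x, √(ρ x) * fderiv ℝ φ x v = -∫ x, inner ℝ (g x) v * φ x

/-- The density `ρ₀` with `ρ₀ ^ (p - 4 / 3) = C_e p / (4 γ (p - 1))`. -/
noncomputable def rho0 (γ Ce p : ℝ) : ℝ := (Ce * p / (4 * γ * (p - 1))) ^ (1 / (p - 4 / 3))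

/-- `α = (3 p - 4) / (4 (p - 1)) ρ₀ ^ (1 / 3) C_e`. -/
noncomputable def alpha (γ Ce p : ℝ) : ℝ :=
  (3 * p - 4) / (4 * (p - 1)) * rho0 γ Ce p ^ ((1 : ℝ) / 3) * Ce

/-- `J_α(ρ) = (γ / p) ρ ^ p - (3 C_e / 4) ρ ^ (4 / 3) + α ρ`. -/
noncomputable def Jalpha (γ Ce p : ℝ) (ρ : ℝ) : ℝ :=
  γ / p * ρ ^ p - 3 * Ce / 4 * ρ ^ ((4 : ℝ) / 3) + alpha γ Ce p * ρ

/-- The functional `𝓔_α(ρ)`; the argument `g` is the weak gradient of `ρ ^ (1 / 2)`. -/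
noncomputable def energy (A γ Ce p : ℝ) {k : ℕ} (z : Fin k → ℝ) (R : Fin k → R3)
    (ρ : R3 → ℝ) (g : R3 → R3) : ℝ :=
  A * (∫ x, ‖g x‖ ^ 2) + (∫ x, Jalpha γ Ce p (ρ x))
    - (∫ x, (∑ j, z j / ‖x - R j‖) * ρ x)
    + 1 / 2 * (∫ x, ∫ y, ρ x * ρ y / ‖x - y‖)
    + ∑ i, ∑ j, (if i < j then z i * z j / ‖R i - R j‖ else 0)

/-- `E_α(lam)`, the infimum of `𝓔_α(ρ)` over `ρ ∈ G_p` with `∫ ρ = lam`. -/
noncomputable def Ealpha (A γ Ce p : ℝ) {k : ℕ} (z : Fin k → ℝ) (R : Fin k → R3)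
    (lam : ℝ) : EReal :=
  ⨅ (ρ : R3 → ℝ) (g : R3 → R3) (_ : Admissible p ρ g ∧ ∫ x, ρ x = lam),
    ((energy A γ Ce p z R ρ g : ℝ) : EReal)

end Pool.Agent.H475Z.TF
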