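import Pool.Agent.Helper149.TFDW

open MeasureTheory Filter Topology Set
open scoped ContDiff

namespace Pool.Agent.H475Z.TF

open Pool.Agent.Helper149 Pool.Agent.Helper149.TFDW

theorem key_ff {A γ Ce p : ℝ} (hA : 0 < A) (hγ : 0 < γ) (hCe : 0 < Ce) (hp : 4 / 3 < p)
    {ρ : TFDW.R3 → ℝ} {g : TFDW.R3 → TFDW.R3} (h : TFDW.Admissible p ρ g) (a : TFDW.R3) :
    Integrable (fun x => ff A γ Ce p √(ρ x) / ‖x - a‖) ∧
    2 * ∫ x, ff A γ Ce p √(ρ x) / ‖x - a‖ ≤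
      A * (∫ x, ‖g x‖ ^ 2) + ∫ x, TFDW.Jalpha γ Ce p (ρ x) := by
  have hpp : 0 < p := by linarith
  have hα := alpha_pos hγ hCe hp
  obtain ⟨hg2, -, w, hws, hw0, hwlim, hw2, hw2p, -, hwgrad⟩ := approx hp h
  let δ : ℕ → ℝ := fun n => 1 / ((n:ℝ) + 1)
  have hδ : ∀ n, 0 < δ n := fun n => by positivity
  have hδlim : Tendsto δ atTop (𝓝 0) := tendsto_one_div_add_atTop_nhds_zero_nat
  let G : ℕ → TFDW.R3 → ℝ := fun n x => 2 * ff A γ Ce p (w n x) / √(‖x - a‖ ^ 2 + δ n ^ 2)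
    + 3 * Ce / 4 * (w n x ^ 2) ^ ((4:ℝ)/3)
  let L : TFDW.R3 → ℝ := fun x =>
    2 * (ff A γ Ce p √(ρ x) / ‖x - a‖) + 3 * Ce / 4 * ρ x ^ ((4:ℝ)/3)
  let B : ℝ := A * (∫ x, ‖g x‖ ^ 2) + (γ / p * (∫ x, ρ x ^ p) + TFDW.alpha γ Ce p * ∫ x, ρ x)
  have hsm := fun n => smooth_grad hA hγ hCe hp (w n) ((hws n).of_le (by simp)) (hw0 n)
      (hw2 n).1 (hw2p n).1 (hwgrad n).1
  have hfirst : ∀ n, Integrable (fun x => 2 * ff A γ Ce p (w n x) / √(‖x - a‖ ^ 2 + δ n ^ 2)) :=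
    fun n => Hardy.integrable_div_sqrt ((hsm n).2.2.1.const_mul 2) a (δ n) (hδ n)
  have hJn := fun n => integrable_Jalpha (γ := γ) (Ce := Ce) hp
    (fun x => sq_nonneg (w n x)) (hw2 n).1 (hw2p n).1
  have hJρ := integrable_Jalpha (γ := γ) (Ce := Ce) hp h.nonneg h.integrable h.integrable_rpow
  have hFatou := Fatou.fatou_real (μ := (volume : Measure TFDW.R3)) G L B ?_ ?_ ?_ ?_
  · obtain ⟨hLi, hLB⟩ := hFatou
    have hI : Integrable (fun x => ff A γ Ce p √(ρ x) / ‖x - a‖) := by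
      have h1 : Integrable (fun x => 2 * (ff A γ Ce p √(ρ x) / ‖x - a‖)) := by
        have := hLi.sub (hJρ.1.const_mul (3 * Ce / 4))
        refine this.congr (ae_of_all _ fun x => ?_)
        simp [L]
      have h2 := h1.const_mul (2⁻¹)
      refine h2.congr (ae_of_all _ fun x => ?_)
      show 2⁻¹ * (2 * (ff A γ Ce p √(ρ x) / ‖x - a‖)) = _
      ring
    refine ⟨hI, ?_⟩
    have h3 : ∫ x, L x = 2 * (∫ x, ff A γ Ce p √(ρ x) / ‖x - a‖) +
        3 * Ce / 4 * ∫ x, ρ x ^ ((4:ℝ)/3) := by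
      show ∫ x, (2 * (ff A γ Ce p √(ρ x) / ‖x - a‖) + 3 * Ce / 4 * ρ x ^ ((4:ℝ)/3)) = _
      rw [integral_add (hI.const_mul _) (hJρ.1.const_mul _)]
      simp only [integral_const_mul]
    rw [h3] at hLB
    rw [hJρ.2.2]
    simp only [B] at hLB
    linarith
  · intro n x
    have := hδ n
    have := (hsm n).2.1 x
    positivity
  · intro n
    exact (hfirst n).add ((hJn n).1.const_mul _)
  · intro n
    have h1 : ∫ x, G n x = (∫ x, 2 * ff A γ Ce p (w n x) / √(‖x - a‖ ^ 2 + δ n ^ 2))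
        + 3 * Ce / 4 * ∫ x, (w n x ^ 2) ^ ((4:ℝ)/3) := by
      show ∫ x, (2 * ff A γ Ce p (w n x) / √(‖x - a‖ ^ 2 + δ n ^ 2)
        + 3 * Ce / 4 * (w n x ^ 2) ^ ((4:ℝ)/3)) = _
      rw [integral_add (hfirst n) ((hJn n).1.const_mul _), integral_const_mul]
    rw [h1]
    obtain ⟨hF, hF0, hFint, hFint', hle⟩ := hsm n
    have h2 := (Hardy.hardyL1 _ hF hF0 hFint hFint' a (δ n) (hδ n)).trans hle
    rw [(hJn n).2.2] at h2
    have h3 := mul_le_mul_of_nonneg_left (hwgrad n).2 hA.le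
    have h4 := mul_le_mul_of_nonneg_left (hw2p n).2 (by positivity : 0 ≤ γ / p)
    have h5 := mul_le_mul_of_nonneg_left (hw2 n).2 hα.le
    simp only [B]
    linarith
  · have hne : ∀ᵐ x : TFDW.R3, x ≠ a := by
      rw [ae_iff]
      simp
    filter_upwards [hwlim, hne] with x hx hxa
    have hxa' : 0 < ‖x - a‖ := norm_pos_iff.mpr (sub_ne_zero.mpr hxa)
    have h1 : Tendsto (fun n => w n x ^ 2) atTop (𝓝 (ρ x)) := hx
    have h1' : Tendsto (fun n => ff A γ Ce p (w n x)) atTop (𝓝 (ff A γ Ce p √(ρ x))) := by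
      have h6 := (Real.continuous_sqrt.tendsto _).comp h1
      have h7 : (fun n => √(w n x ^ 2)) = fun n => w n x :=
        funext fun n => Real.sqrt_sq (hw0 n x)
      have h8 : Tendsto (fun n => w n x) atTop (𝓝 √(ρ x)) := by
        rw [← h7]; exact h6
      exact ((contDiff_ff A γ Ce hp).continuous.tendsto _).comp h8
    have h2 : Tendsto (fun n => √(‖x - a‖ ^ 2 + δ n ^ 2)) atTop (𝓝 ‖x - a‖) := by
      have h3 : Tendsto (fun n => ‖x - a‖ ^ 2 + δ n ^ 2) atTop (𝓝 (‖x - a‖ ^ 2 + 0 ^ 2)) :=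
        (hδlim.pow 2).const_add _
      have h4 := (Real.continuous_sqrt.tendsto _).comp h3
      simpa [Function.comp_def, Real.sqrt_sq hxa'.le] using h4
    have h3 : Tendsto (fun n => (w n x ^ 2) ^ ((4:ℝ)/3)) atTop (𝓝 (ρ x ^ ((4:ℝ)/3))) :=
      ((Real.continuous_rpow_const (by norm_num : (0:ℝ) ≤ 4/3)).tendsto _).comp h1
    have h4 := ((h1'.const_mul 2).div h2 hxa'.ne').add (h3.const_mul (3 * Ce / 4))
    have h5 : L x = 2 * ff A γ Ce p √(ρ x) / ‖x - a‖ + 3 * Ce / 4 * ρ x ^ ((4:ℝ)/3) := by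
      simp only [L]; ring
    rw [h5]
    exact h4

theorem ff_growth {A γ Ce p : ℝ} (hA : 0 < A) (hγ : 0 < γ) (hCe : 0 < Ce) (hp : 4 / 3 < p)
    (N : ℝ) (hN : 0 < N) : ∃ M : ℝ, 0 ≤ M ∧ ∀ s, 0 ≤ s → N * s ^ 2 ≤ ff A γ Ce p s + N * M := by
  have hpp : 0 < p := by linarith
  have hα := alpha_pos hγ hCe hp
  have t1 : Tendsto (fun r : ℝ => r ^ ((1:ℝ)/3) * (γ / p * r ^ (p - 4 / 3) + -(3 * Ce / 4)))
      atTop atTop :=
    (tendsto_rpow_atTop (by norm_num)).atTop_mul_atTop₀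
      (tendsto_atTop_add_const_right _ _
        ((tendsto_rpow_atTop (by linarith)).const_mul_atTop (by positivity)))
  obtain ⟨r₀, hr₀⟩ := eventually_atTop.mp ((t1.eventually_ge_atTop (N ^ 2 / A)).and
    (eventually_gt_atTop 0))
  have hb : ∀ r, r₀ ≤ r → N ^ 2 / A ≤ hfun γ Ce p r := by
    intro r hr
    obtain ⟨h1, h2⟩ := hr₀ r hr
    have e : r ^ (p - 1) = r ^ ((1:ℝ)/3) * r ^ (p - 4 / 3) := by
      rw [← Real.rpow_add h2]; congr 1; ring
    unfold hfun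
    rw [e]
    nlinarith
  have hr0 : 0 < r₀ := (hr₀ r₀ le_rfl).2
  refine ⟨r₀, hr0.le, fun s hs => ?_⟩
  by_cases hs' : s ≤ √r₀
  · have := ff_nonneg A γ Ce p hs
    have h2 : s ^ 2 ≤ r₀ := by
      rw [← Real.sq_sqrt hr0.le]; exact pow_le_pow_left₀ hs hs' 2
    nlinarith
  · have h1 := ff_diff A γ Ce hp √r₀ s (2 * N) (le_of_not_ge hs') (by
      intro t ht _
      have ht0 : 0 ≤ t := (Real.sqrt_nonneg _).trans ht
      have h2 : r₀ ≤ t ^ 2 := by
        rw [← Real.sq_sqrt hr0.le]; exact pow_le_pow_left₀ (Real.sqrt_nonneg _) ht 2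
      have h3 := hb _ h2
      unfold hh
      rw [Jalpha_eq hp (sq_nonneg t), mul_assoc, mul_assoc, ← Real.sqrt_mul hA.le]
      refine mul_le_mul_of_nonneg_left (Real.le_sqrt_of_sq_le ?_) (by norm_num)
      rw [div_le_iff₀ hA] at h3
      nlinarith [sq_nonneg t])
    have h2 := ff_nonneg A γ Ce p (Real.sqrt_nonneg r₀)
    rw [Real.sq_sqrt hr0.le] at h1
    linarith

theorem integrable_near (a : TFDW.R3) :
    Integrable (fun x : TFDW.R3 => (Metric.ball a 1).indicator (fun x => 1 / ‖x - a‖) x) := by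
  have h1 : IntegrableOn (fun x : TFDW.R3 => 1 / ‖x‖) (Metric.ball 0 1) := by
    refine integrableOn_ball_of_norm_le_rpow (C := 1) (α := 1) (by simp) (by simp)
      (ae_of_all _ fun x => ?_) ?_
    · simp [Real.rpow_neg_one]
    · exact (measurable_const.div measurable_norm).aestronglyMeasurable
  have h2 := ((integrable_indicator_iff Metric.isOpen_ball.measurableSet).mpr h1).comp_sub_right a
  refine h2.congr (ae_of_all _ fun x => ?_)
  simp only [indicator, Metric.mem_ball, dist_eq_norm, sub_zero]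

theorem far_sq {A γ Ce p : ℝ} (hA : 0 < A) (hγ : 0 < γ) (hCe : 0 < Ce) (hp : 4 / 3 < p)
    {ρ : TFDW.R3 → ℝ} {g : TFDW.R3 → TFDW.R3} (h : TFDW.Admissible p ρ g) (a : TFDW.R3) :
    Integrable (fun x => ρ x / max ‖x - a‖ 1) ∧
    (∫ x, ρ x / max ‖x - a‖ 1) ^ 2 ≤ 2 * ∫ x, ∫ y, ρ x * ρ y / ‖x - y‖ := by
  obtain ⟨c, hc0, hc⟩ := ff_lower hA hγ hCe hp
  have hk := fun a => key hA hγ hCe hp hc0 hc h a
  have hm : ∀ x : TFDW.R3, 1 ≤ max ‖x - a‖ 1 := fun x => le_max_right _ _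
  have hf : Integrable (fun x => ρ x / max ‖x - a‖ 1) := by
    refine h.integrable.mono' ?_ (ae_of_all _ fun x => ?_)
    · exact (h.integrable.aemeasurable.div (by fun_prop)).aestronglyMeasurable
    · have := h.nonneg x
      have := hm x
      rw [Real.norm_of_nonneg (by positivity)]
      exact div_le_self (h.nonneg x) (hm x)
  refine ⟨hf, ?_⟩
  have e : ∀ x, ∫ y, ρ x * ρ y / ‖x - y‖ = ρ x * ∫ y, ρ y / ‖y - x‖ := by
    intro x
    rw [← integral_const_mul]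
    congr 1
    funext y
    rw [norm_sub_rev, mul_div_assoc]
  have hout : Integrable (fun x => ρ x * ∫ y, ρ y / ‖y - x‖) := by
    have hmeas : AEStronglyMeasurable (fun x : TFDW.R3 => ∫ y, ρ y / ‖y - x‖) volume := by
      refine AEStronglyMeasurable.integral_prod_right'
        (f := fun q : TFDW.R3 × TFDW.R3 => ρ q.2 / ‖q.2 - q.1‖) ?_
      exact (h.integrable.aestronglyMeasurable.comp_snd.aemeasurable.div
        (by fun_prop)).aestronglyMeasurable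
    refine h.integrable.mul_bdd (c := (A * (∫ x, ‖g x‖ ^ 2) + ∫ x, TFDW.Jalpha γ Ce p (ρ x)) /
      (2 * c)) hmeas (ae_of_all _ fun x => ?_)
    rw [Real.norm_of_nonneg (integral_nonneg fun y => div_nonneg (h.nonneg y) (norm_nonneg _)),
      le_div_iff₀ (by positivity), mul_comm]
    exact (hk x).2
  simp only [e]
  rw [sq, ← integral_mul_const, ← integral_const_mul]
  refine integral_mono (hf.mul_const _) (hout.const_mul 2) fun x => ?_
  show ρ x / max ‖x - a‖ 1 * ∫ y, ρ y / max ‖y - a‖ 1 ≤ 2 * (ρ x * ∫ y, ρ y / ‖y - x‖)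
  rw [← integral_const_mul, ← integral_const_mul, ← integral_const_mul]
  refine integral_mono_ae (hf.const_mul _) (((hk x).1.const_mul _).const_mul _) ?_
  have hne : ∀ᵐ y : TFDW.R3, y ≠ x := by
    rw [ae_iff]
    simp
  filter_upwards [hne] with y hy
  have hy' : 0 < ‖y - x‖ := norm_pos_iff.mpr (sub_ne_zero.mpr hy)
  have h1 := hm x
  have h2 := hm y
  have h3 : ‖y - x‖ ≤ 2 * (max ‖x - a‖ 1 * max ‖y - a‖ 1) := by
    have h4 : ‖y - x‖ ≤ ‖y - a‖ + ‖x - a‖ := by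
      have := norm_sub_le (y - a) (x - a)
      rwa [sub_sub_sub_cancel_right] at this
    have h5 := le_max_left ‖x - a‖ 1
    have h6 := le_max_left ‖y - a‖ 1
    nlinarith
  have h7 := mul_nonneg (h.nonneg x) (h.nonneg y)
  rw [div_mul_div_comm, ← mul_div_assoc, ← mul_div_assoc, div_le_div_iff₀ (by positivity) hy']
  nlinarith

theorem one_nucleus {A γ Ce p : ℝ} (hA : 0 < A) (hγ : 0 < γ) (hCe : 0 < Ce) (hp : 4 / 3 < p)
    (Z : ℝ) (hZ : 0 < Z) (a : TFDW.R3) : ∃ C : ℝ, ∀ (ρ : TFDW.R3 → ℝ) (g : TFDW.R3 → TFDW.R3),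
      TFDW.Admissible p ρ g → Integrable (fun x => ρ x / ‖x - a‖) ∧
      Z * ∫ x, ρ x / ‖x - a‖ ≤ (A * (∫ x, ‖g x‖ ^ 2) + ∫ x, TFDW.Jalpha γ Ce p (ρ x)) / 2
        + 1 / 2 * (∫ x, ∫ y, ρ x * ρ y / ‖x - y‖) + C := by
  obtain ⟨M, hM0, hM⟩ := ff_growth hA hγ hCe hp Z hZ
  obtain ⟨c, hc0, hc⟩ := ff_lower hA hγ hCe hp
  refine ⟨Z * M * (∫ x : TFDW.R3, (Metric.ball a 1).indicator (fun x => 1 / ‖x - a‖) x) + Z ^ 2,
    fun ρ g h => ?_⟩
  have h0 := (key hA hγ hCe hp hc0 hc h a).1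
  obtain ⟨h1, h1'⟩ := key_ff hA hγ hCe hp h a
  obtain ⟨h2, h2'⟩ := far_sq hA hγ hCe hp h a
  have h3 := integrable_near a
  refine ⟨h0, ?_⟩
  have hle : ∫ x, Z * (ρ x / ‖x - a‖) ≤ ∫ x, (ff A γ Ce p √(ρ x) / ‖x - a‖ +
      Z * M * (Metric.ball a 1).indicator (fun x => 1 / ‖x - a‖) x + Z * (ρ x / max ‖x - a‖ 1)) := by
    refine integral_mono (h0.const_mul _) ((h1.add (h3.const_mul _)).add (h2.const_mul _))
      fun x => ?_
    have hx := h.nonneg x
    have hf := ff_nonneg A γ Ce p (Real.sqrt_nonneg (ρ x))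
    have hn := norm_nonneg (x - a)
    by_cases hb : ‖x - a‖ < 1
    · have hg := hM _ (Real.sqrt_nonneg (ρ x))
      rw [Real.sq_sqrt hx] at hg
      have e : (Metric.ball a 1).indicator (fun x => 1 / ‖x - a‖) x = 1 / ‖x - a‖ :=
        indicator_of_mem (by simpa [dist_eq_norm] using hb) _
      have h4 : 0 ≤ Z * (ρ x / max ‖x - a‖ 1) := by positivity
      have h5 : Z * (ρ x / ‖x - a‖) ≤ ff A γ Ce p √(ρ x) / ‖x - a‖ + Z * M * (1 / ‖x - a‖) := by
        rw [← mul_div_assoc, mul_one_div, ← add_div]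
        exact div_le_div_of_nonneg_right hg hn
      simp only [e]
      linarith
    · have e : (Metric.ball a 1).indicator (fun x => 1 / ‖x - a‖) x = 0 :=
        indicator_of_notMem (by simpa [dist_eq_norm] using hb) _
      have h4 : 0 ≤ ff A γ Ce p √(ρ x) / ‖x - a‖ := by positivity
      simp only [e, max_eq_left (le_of_not_gt hb)]
      linarith
  have h4 : Integrable (fun x => ff A γ Ce p √(ρ x) / ‖x - a‖ +
      Z * M * (Metric.ball a 1).indicator (fun x => 1 / ‖x - a‖) x) := h1.add (h3.const_mul _)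
  rw [integral_add h4 (h2.const_mul _), integral_add h1 (h3.const_mul _)] at hle
  simp only [integral_const_mul] at hle
  nlinarith [sq_nonneg ((∫ x, ρ x / max ‖x - a‖ 1) / 2 - Z)]

end Pool.Agent.H475Z.TF
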