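import Pool.Agent.H475Z.TF.Defs
import Pool.Agent.H475Z.TF.Est

open MeasureTheory Filter Topology Set
open scoped ContDiff

namespace Pool.Agent.H475Z.TF

open Pool.Agent.Helper149

theorem Admissible.old {p : ℝ} {ρ : R3 → ℝ} {g : R3 → R3} (h : Admissible p ρ g) :
    TFDW.Admissible p ρ g :=
  ⟨h.nonneg, h.integrable, h.integrable_rpow, h.grad_memLp, h.grad_weak⟩

theorem energy_ge {A γ Ce p : ℝ} (hA : 0 < A) (hγ : 0 < γ) (hCe : 0 < Ce) (hp : 4 / 3 < p)
    {k : ℕ} (hk : 1 ≤ k) (z : Fin k → ℝ) (R : Fin k → R3) (hz : ∀ j, 0 < z j) :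
    ∃ C : ℝ, ∀ ρ g, Admissible p ρ g →
      (A * (∫ x, ‖g x‖ ^ 2) + ∫ x, Jalpha γ Ce p (ρ x)) / 2 - C ≤ energy A γ Ce p z R ρ g := by
  have : Nonempty (Fin k) := ⟨⟨0, hk⟩⟩
  have hZ : 0 < ∑ j, z j := Finset.sum_pos (fun j _ => hz j) Finset.univ_nonempty
  choose C hC using fun j => one_nucleus hA hγ hCe hp _ hZ (R j)
  refine ⟨(∑ j, z j * C j) / ∑ j, z j, fun ρ g h => ?_⟩
  have hU : 0 ≤ ∑ i, ∑ j, (if i < j then z i * z j / ‖R i - R j‖ else 0) :=
    Finset.sum_nonneg fun i _ => Finset.sum_nonneg fun j _ => by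
      have := hz i
      have := hz j
      positivity
  have hV : ∫ x, (∑ j, z j / ‖x - R j‖) * ρ x = ∑ j, z j * ∫ x, ρ x / ‖x - R j‖ := by
    simp only [← integral_const_mul]
    rw [← integral_finsetSum _ fun j _ => (hC j ρ g h.old).1.const_mul (z j)]
    congr 1
    funext x
    rw [Finset.sum_mul]
    exact Finset.sum_congr rfl fun j _ => by ring
  set K := A * (∫ x, ‖g x‖ ^ 2) + ∫ x, Jalpha γ Ce p (ρ x) with hK
  set D := 1 / 2 * (∫ x, ∫ y, ρ x * ρ y / ‖x - y‖) with hD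
  have h1 : ∑ j, z j * ((∑ j, z j) * ∫ x, ρ x / ‖x - R j‖) ≤ ∑ j, z j * (K / 2 + D + C j) :=
    Finset.sum_le_sum fun j _ => mul_le_mul_of_nonneg_left (hC j ρ g h.old).2 (hz j).le
  have h2 : ∑ j, z j * ((∑ j, z j) * ∫ x, ρ x / ‖x - R j‖) =
      (∑ j, z j) * ∑ j, z j * ∫ x, ρ x / ‖x - R j‖ := by
    rw [Finset.mul_sum]
    exact Finset.sum_congr rfl fun j _ => by ring
  have h3 : ∑ j, z j * (K / 2 + D + C j) = (∑ j, z j) * (K / 2 + D) + ∑ j, z j * C j := by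
    rw [Finset.sum_mul, ← Finset.sum_add_distrib]
    exact Finset.sum_congr rfl fun j _ => by ring
  rw [h2, h3] at h1
  have h4 : ∑ j, z j * ∫ x, ρ x / ‖x - R j‖ ≤ K / 2 + D + (∑ j, z j * C j) / ∑ j, z j := by
    refine le_of_mul_le_mul_left ?_ hZ
    rw [mul_add _ (K / 2 + D), mul_div_cancel₀ _ hZ.ne']
    exact h1
  unfold energy
  rw [hV]
  linarith

theorem trial_admissible {p : ℝ} (hp : 4 / 3 < p) {ψ : R3 → ℝ} (hψ : ContDiff ℝ ∞ ψ)
    (hs : HasCompactSupport ψ) (h0 : ∀ x, 0 ≤ ψ x) :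
    Admissible p (fun x => ψ x ^ 2)
      (fun x => (InnerProductSpace.toDual ℝ R3).symm (fderiv ℝ ψ x)) := by
  have hsq : ∀ x, √(ψ x ^ 2) = ψ x := fun x => Real.sqrt_sq (h0 x)
  have hs2 : HasCompactSupport (fun x => ψ x ^ 2) := by
    have h1 : HasCompactSupport (fun x => ψ x * ψ x) := hs.mul_left
    simpa only [pow_two] using h1
  have hint2 : Integrable (fun x => ψ x ^ 2) :=
    (hψ.continuous.pow 2).integrable_of_hasCompactSupport hs2
  have hgc : Continuous (fun x => (InnerProductSpace.toDual ℝ R3).symm (fderiv ℝ ψ x)) := by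
    have h1 : Continuous (fun L : StrongDual ℝ R3 => (InnerProductSpace.toDual ℝ R3).symm L) :=
      LinearIsometryEquiv.continuous _
    have h2 : Continuous (fderiv ℝ ψ) := hψ.continuous_fderiv (by simp)
    exact h1.comp h2
  have hgs : HasCompactSupport (fun x => (InnerProductSpace.toDual ℝ R3).symm (fderiv ℝ ψ x)) :=
    (hs.fderiv ℝ).comp_left (g := fun L : StrongDual ℝ R3 =>
      (InnerProductSpace.toDual ℝ R3).symm L) (map_zero _)
  refine ⟨fun x => by positivity, hint2, ?_, hgc.memLp_of_hasCompactSupport hgs, ?_⟩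
  · refine Continuous.integrable_of_hasCompactSupport
      ((hψ.continuous.pow 2).rpow_const fun x => Or.inr (by linarith)) ?_
    refine hs.comp_left (g := fun t : ℝ => (t ^ 2) ^ p) ?_
    rw [zero_pow two_ne_zero, Real.zero_rpow (by linarith)]
  · intro φ hφ hφs v
    simp only [hsq, InnerProductSpace.toDual_symm_apply]
    have hc1 : Continuous fun x => fderiv ℝ ψ x v :=
      (hψ.continuous_fderiv (by simp)).clm_apply continuous_const
    have hc2 : Continuous fun x => fderiv ℝ φ x v :=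
      (hφ.continuous_fderiv (by simp)).clm_apply continuous_const
    refine integral_mul_fderiv_eq_neg_fderiv_mul_of_integrable ?_ ?_ ?_ ?_ ?_
    · exact (hc1.mul hφ.continuous).integrable_of_hasCompactSupport hφs.mul_left
    · exact (hψ.continuous.mul hc2).integrable_of_hasCompactSupport hs.mul_right
    · exact (hψ.continuous.mul hφ.continuous).integrable_of_hasCompactSupport hs.mul_right
    · intro x _; exact (hψ.differentiable (by simp)) x
    · intro x _; exact (hφ.differentiable (by simp)) x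

theorem exists_mass {p : ℝ} (hp : 4 / 3 < p) (lam : ℝ) (hlam : 0 ≤ lam) :
    ∃ ρ g, Admissible p ρ g ∧ ∫ x, ρ x = lam := by
  let b : ContDiffBump (0 : R3) := ⟨1, 2, one_pos, one_lt_two⟩
  have hm : 0 < ∫ x, b x ^ 2 := by
    refine Continuous.integral_pos_of_hasCompactSupport_nonneg_nonzero (x := 0)
      (b.continuous.pow 2) ?_ (fun x => by positivity) ?_
    · exact b.hasCompactSupport.comp_left (g := fun t : ℝ => t ^ 2) (by simp)
    · rw [b.one_of_mem_closedBall (by simp [b.rIn_pos.le])]; simp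
  refine ⟨_, _, trial_admissible hp (ψ := fun x => √(lam / ∫ x, b x ^ 2) * b x)
    (contDiff_const.mul b.contDiff) b.hasCompactSupport.mul_left
    (fun x => mul_nonneg (Real.sqrt_nonneg _) b.nonneg), ?_⟩
  simp only [mul_pow, integral_const_mul]
  rw [Real.sq_sqrt (by positivity), div_mul_cancel₀ _ hm.ne']

theorem main (A γ Ce p : ℝ) (hA : 0 < A) (hγ : 0 < γ) (hCe : 0 < Ce) (hp : 4 / 3 < p)
    (k : ℕ) (hk : 1 ≤ k) (z : Fin k → ℝ) (R : Fin k → R3) (hz : ∀ j, 0 < z j) :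
    (∀ lam, 0 ≤ lam → ∃ e : ℝ, Ealpha A γ Ce p z R lam = e) ∧
    Tendsto (Ealpha A γ Ce p z R) atTop (𝓝 ⊤) ∧
    ¬ AntitoneOn (Ealpha A γ Ce p z R) (Ici 0) := by
  obtain ⟨C, hC⟩ := energy_ge hA hγ hCe hp hk z R hz
  have hα := TFDW.alpha_pos hγ hCe hp
  obtain ⟨C₂, hC₂, hm⟩ := TFDW.smooth_mass hA hγ hCe hp (C₁ := 1 / TFDW.alpha γ Ce p + 1)
    (by positivity) (by linarith)
  have hK : ∀ ρ g, Admissible p ρ g → 0 ≤ A * (∫ x, ‖g x‖ ^ 2) + ∫ x, Jalpha γ Ce p (ρ x) := by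
    intro ρ g h
    have h1 : 0 ≤ ∫ x, ‖g x‖ ^ 2 := integral_nonneg fun x => by positivity
    have h2 : 0 ≤ ∫ x, Jalpha γ Ce p (ρ x) :=
      integral_nonneg fun x => TFDW.Jalpha_nonneg hγ hCe hp (h.nonneg x)
    positivity
  have fin : ∀ lam, 0 ≤ lam → ∃ e : ℝ, Ealpha A γ Ce p z R lam = e := by
    intro lam hlam
    obtain ⟨ρ, g, h⟩ := exists_mass hp lam hlam
    have h1 : Ealpha A γ Ce p z R lam ≤ (energy A γ Ce p z R ρ g : ℝ) :=
      iInf_le_of_le ρ (iInf_le_of_le g (iInf_le _ h))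
    have h2 : ((-C : ℝ) : EReal) ≤ Ealpha A γ Ce p z R lam := by
      refine le_iInf fun ρ => le_iInf fun g => le_iInf fun h => EReal.coe_le_coe_iff.mpr ?_
      have := hC ρ g h.1
      have := hK ρ g h.1
      linarith
    exact ⟨_, (EReal.coe_toReal (ne_top_of_le_ne_top (EReal.coe_ne_top _) h1)
      (ne_bot_of_le_ne_bot (EReal.coe_ne_bot _) h2)).symm⟩
  have lim : Tendsto (Ealpha A γ Ce p z R) atTop (𝓝 ⊤) := by
    refine EReal.tendsto_nhds_top_iff_real.mpr fun b => ?_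
    set B := max 0 (2 * (b + 1 + C)) with hB
    filter_upwards [eventually_gt_atTop
      ((1 / TFDW.alpha γ Ce p + 1) * B + C₂ * B ^ ((3:ℝ)/2))] with lam hlam
    refine lt_of_lt_of_le (EReal.coe_lt_coe_iff.mpr (lt_add_one b)) ?_
    refine le_iInf fun ρ => le_iInf fun g => le_iInf fun h => EReal.coe_le_coe_iff.mpr ?_
    have h1 := hC ρ g h.1
    have h2 := TFDW.mass_bound hA hγ hCe hp (by positivity) hC₂ hm h.1.old
    have h3 := hK ρ g h.1
    change ∫ x, ρ x ≤ _ * (A * (∫ x, ‖g x‖ ^ 2) + ∫ x, Jalpha γ Ce p (ρ x)) +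
      C₂ * (A * (∫ x, ‖g x‖ ^ 2) + ∫ x, Jalpha γ Ce p (ρ x)) ^ ((3:ℝ)/2) at h2
    rw [h.2] at h2
    set K := A * (∫ x, ‖g x‖ ^ 2) + ∫ x, Jalpha γ Ce p (ρ x)
    by_contra hlt
    have h4 : K ≤ B := le_max_of_le_right (by linarith)
    have h5 := mul_le_mul_of_nonneg_left h4 (by positivity : 0 ≤ 1 / TFDW.alpha γ Ce p + 1)
    have h6 := mul_le_mul_of_nonneg_left (Real.rpow_le_rpow h3 h4 (by norm_num : (0:ℝ) ≤ 3/2)) hC₂
    linarith
  refine ⟨fin, lim, fun hanti => ?_⟩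
  obtain ⟨e, he⟩ := fin 0 le_rfl
  obtain ⟨lam, h1, h2⟩ := ((EReal.tendsto_nhds_top_iff_real.mp lim e).and
    (eventually_ge_atTop 0)).exists
  have := hanti (mem_Ici.mpr le_rfl) (mem_Ici.mpr h2) h2
  rw [he] at this
  exact absurd h1 (not_lt.mpr this)

end Pool.Agent.H475Z.TF
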